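import Pool.Agent.SYS.LP.Glb

/-!
# SYS-LP-Main: packing of centres along a shortest null-homologous, not null-homotopic closed walk
* `packingN`: `W ≠ []` (`NullHtp []`), `w i := W[i % W.length]`, `l = W.length`: `st w 0 l = W` (`List.ext_getElem`, `Nat.mod_eq_of_lt`), `PW`: `walk` from
  `W` closed: `IsWalk v W v` gives `hd W[i] = tl W[i + 1]` and `hd W[l - 1] = v = tl W[0]` (induction on the list).  `Shw` by `hmin`.  `Shw.centres`.
* `packing`: `q = ⌊η m⌋₊`: `1 ≤ q ≤ m`, `η m / 2 ≤ q ≤ η m`.  Divide (integer form) by `q²`: `(4 m - 2 q) #C ≤ l + 4 m (M1 + A / q²)`,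
  `4 m (1 - η) ≤ 4 m - 2 q` and `A / q² ≤ 4 A / (η m)²`.
-/

namespace SYS

open Classical SST GNH

variable {D : Type} {T : Tri D}

private theorem mn_walk (T : Tri D) (W : List D) : ∀ u v : T.V, T.IsWalk u W v →
    (∀ (i : ℕ) (h : i + 1 < W.length), T.hd W[i] = T.tl W[i + 1]) ∧
      ∀ h : 0 < W.length, T.tl W[0] = u ∧ T.hd (W[W.length - 1]'(by omega)) = v := by
  induction W with
  | nil =>
    intro u v _
    exact ⟨fun i h => absurd h (by simp), fun h => absurd h (by simp)⟩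
  | cons d c ih =>
    intro u v h
    obtain ⟨h1, h2⟩ := ih _ _ h.2
    refine ⟨fun i hi => ?_, fun _ => ⟨h.1, ?_⟩⟩
    · cases i with
      | zero =>
        have h3 : 0 < c.length := by
          simp only [List.length_cons] at hi
          omega
        exact (h2 h3).1.symm
      | succ i =>
        have h3 : i + 1 < c.length := by
          simp only [List.length_cons] at hi
          omega
        exact h1 i h3
    · cases c with
      | nil =>
        exact h.2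
      | cons e c =>
        exact (h2 (by simp)).2

theorem packingN [Finite D] (hT : T.Conn) {W : List D} (hW : T.Closed W) (h0 : T.NullHom W) (h1 : ¬ T.NullHtp W)
    (hmin : ∀ c : List D, T.Closed c → T.NullHom c → ¬ T.NullHtp c → W.length ≤ c.length) {k : D → ℤ}
    (hk : ∀ d, k (T.f d) = k d) (hc : ∀ d, T.chain W d = k d - k (T.a d)) {m q : ℕ} (hq : 1 ≤ q) (hqm : q ≤ m) {M1 A : ℕ}
    (hM : {v : T.V | ∃ c, T.IsWalk v c v ∧ c.length ≤ 4 * m ∧ ¬ T.NullHtp c}.ncard ≤ M1) (hA : {d | k d ≠ 0}.ncard ≤ A) :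
    ∃ C : Finset T.V, C.Nonempty ∧ (∀ x ∈ C, ∃ d ∈ W, x = T.tl d) ∧
      (∀ x ∈ C, ∀ y ∈ C, x ≠ y → ¬ Dle T (2 * m) x y) ∧
      (∀ Z ⊆ C, Z.Nonempty → Z ≠ C → ∃ x ∈ Z, ∃ y ∈ C \ Z, Dle T (2 * m + 1) x y) ∧
      (∀ d ∈ W, ∃ x ∈ C, Dle T (2 * m) x (T.tl d)) ∧
      (4 * m - 2 * q) * q ^ 2 * C.card ≤ q ^ 2 * W.length + 4 * m * (q ^ 2 * M1 + A) := by
  have hpos : 0 < W.length := by
    rcases Nat.eq_zero_or_pos W.length with h | h
    · rw [List.length_eq_zero_iff.1 h] at h1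
      exact absurd (Relation.EqvGen.refl _) h1
    · exact h
  obtain ⟨v, hv⟩ := hW
  obtain ⟨hs, he⟩ := mn_walk T W v v hv
  obtain ⟨he1, he2⟩ := he hpos
  obtain ⟨w, hw⟩ : ∃ w : ℕ → D, ∀ i, w i = W[i % W.length]'(Nat.mod_lt _ hpos) := ⟨_, fun _ => rfl⟩
  have hwi : ∀ (i : ℕ) (hi : i < W.length), w i = W[i] := by
    intro i hi
    rw [hw]
    congr 1
    exact Nat.mod_eq_of_lt hi
  have hst : st w 0 W.length = W := by
    unfold st
    refine List.ext_getElem (by rw [List.length_map, List.length_range]) fun i h2 h3 => ?_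
    rw [List.getElem_map, List.getElem_range, zero_add]
    exact hwi i h3
  have hper : ∀ i, w (i + W.length) = w i := by
    intro i
    rw [hw, hw]
    congr 1
    exact Nat.add_mod_right _ _
  have hwalk : ∀ i, T.hd (w i) = T.tl (w (i + 1)) := by
    intro i
    have h2 : i % W.length < W.length := Nat.mod_lt _ hpos
    rw [hw i, hw (i + 1)]
    rcases Nat.lt_or_ge (i % W.length + 1) W.length with h3 | h3
    · rw [hs _ h3]
      congr 2
      rw [Nat.add_mod, Nat.mod_eq_of_lt (show 1 < W.length by omega), Nat.mod_eq_of_lt h3]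
    · have h4 : (i + 1) % W.length = 0 := by
        have h5 : i + 1 = W.length * (i / W.length + 1) := by
          have h6 := Nat.div_add_mod i W.length
          rw [mul_add, mul_one]
          omega
        rw [h5, Nat.mul_mod_right]
      have e1 : W[(i + 1) % W.length]'(Nat.mod_lt _ hpos) = W[0] := by
        congr 1
      have e2 : W[i % W.length] = W[W.length - 1]'(by omega) := by
        congr 1
        omega
      rw [e1, e2, he1, he2]
  have hS : Shw T w W.length := by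
    refine ⟨⟨hpos, hper, hwalk⟩, ?_, ?_, hmin⟩
    · rw [hst]
      exact h0
    · rw [hst]
      exact h1
  obtain ⟨C, h2, h3, h4, h5, h6, h7⟩ := hS.centres hT hk (by
    rw [hst]
    exact hc) hq hqm hM hA
  refine ⟨C, h2, fun x hx => ?_, h4, h5, fun d hd => ?_, h7⟩
  · obtain ⟨i, hi⟩ := h3 x hx
    refine ⟨w i, ?_, hi⟩
    rw [hw]
    exact List.getElem_mem _
  · obtain ⟨i, hi, rfl⟩ := List.getElem_of_mem hd
    rw [← hwi i hi]
    exact h6 i

theorem packing [Finite D] (hT : T.Conn) {W : List D} (hW : T.Closed W) (h0 : T.NullHom W) (h1 : ¬ T.NullHtp W)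
    (hmin : ∀ c : List D, T.Closed c → T.NullHom c → ¬ T.NullHtp c → W.length ≤ c.length) {k : D → ℤ}
    (hk : ∀ d, k (T.f d) = k d) (hc : ∀ d, T.chain W d = k d - k (T.a d)) {m : ℕ} {η : ℝ} (hη : 0 < η) (hη1 : η ≤ 1)
    (hm : 1 ≤ η * m) {M1 A : ℕ}
    (hM : {v : T.V | ∃ c, T.IsWalk v c v ∧ c.length ≤ 4 * m ∧ ¬ T.NullHtp c}.ncard ≤ M1) (hA : {d | k d ≠ 0}.ncard ≤ A) :
    ∃ C : Finset T.V, C.Nonempty ∧ (∀ x ∈ C, ∃ d ∈ W, x = T.tl d) ∧
      (∀ x ∈ C, ∀ y ∈ C, x ≠ y → ¬ Dle T (2 * m) x y) ∧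
      (∀ Z ⊆ C, Z.Nonempty → Z ≠ C → ∃ x ∈ Z, ∃ y ∈ C \ Z, Dle T (2 * m + 1) x y) ∧
      (∀ d ∈ W, ∃ x ∈ C, Dle T (2 * m) x (T.tl d)) ∧
      4 * m * (1 - η) * C.card ≤ W.length + 4 * m * ((M1 : ℝ) + 4 * A / (η * m) ^ 2) := by
  have hm0 : (0 : ℝ) ≤ m := Nat.cast_nonneg m
  have hq1 : 1 ≤ ⌊η * (m : ℝ)⌋₊ := Nat.le_floor (by exact_mod_cast hm)
  have hq2 : (⌊η * (m : ℝ)⌋₊ : ℝ) ≤ η * m := Nat.floor_le (by linarith)
  have hq3 : η * (m : ℝ) < ⌊η * (m : ℝ)⌋₊ + 1 := Nat.lt_floor_add_one _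
  have hηm : η * (m : ℝ) ≤ m := by
    calc η * (m : ℝ) ≤ 1 * m := mul_le_mul_of_nonneg_right hη1 hm0
      _ = m := one_mul _
  generalize ⌊η * (m : ℝ)⌋₊ = q at *
  have hqm : q ≤ m := by
    have : (q : ℝ) ≤ m := hq2.trans hηm
    exact_mod_cast this
  obtain ⟨C, h2, h3, h4, h5, h6, h7⟩ := packingN hT hW h0 h1 hmin hk hc hq1 hqm hM hA
  refine ⟨C, h2, h3, h4, h5, h6, ?_⟩
  have hq1' : (1 : ℝ) ≤ q := by exact_mod_cast hq1
  have hqp : (0 : ℝ) < (q : ℝ) ^ 2 := by positivity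
  have h8 : ((4 : ℝ) * m - 2 * q) * q ^ 2 * C.card ≤ q ^ 2 * W.length + 4 * m * (q ^ 2 * M1 + A) := by
    have h9 : ((4 * m - 2 * q : ℕ) : ℝ) = 4 * m - 2 * q := by
      rw [Nat.cast_sub (by omega)]
      push_cast
      ring
    rw [← h9]
    exact_mod_cast h7
  have hA0 : (0 : ℝ) ≤ A := Nat.cast_nonneg A
  have hC0 : (0 : ℝ) ≤ C.card := Nat.cast_nonneg _
  have h9 : (A : ℝ) / q ^ 2 ≤ 4 * A / (η * m) ^ 2 := by
    rw [div_le_div_iff₀ hqp (by positivity)]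
    have h10 : (η * (m : ℝ)) ^ 2 ≤ 4 * q ^ 2 := by
      have h11 : η * (m : ℝ) ≤ 2 * q := by linarith
      calc (η * (m : ℝ)) ^ 2 ≤ (2 * (q : ℝ)) ^ 2 := pow_le_pow_left₀ (by linarith) h11 2
        _ = 4 * q ^ 2 := by ring
    calc (A : ℝ) * (η * m) ^ 2 ≤ A * (4 * q ^ 2) := mul_le_mul_of_nonneg_left h10 hA0
      _ = 4 * A * q ^ 2 := by ring
  have h10 : ((4 : ℝ) * m - 2 * q) * C.card ≤ W.length + 4 * m * (M1 + A / q ^ 2) := by
    have h11 : ((4 : ℝ) * m - 2 * q) * C.card * q ^ 2 ≤ (W.length + 4 * m * (M1 + A / q ^ 2)) * q ^ 2 := by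
      have h12 : ((W.length : ℝ) + 4 * m * (M1 + A / q ^ 2)) * q ^ 2 = q ^ 2 * W.length + 4 * m * (q ^ 2 * M1 + A) := by
        field_simp
      rw [h12]
      calc ((4 : ℝ) * m - 2 * q) * C.card * q ^ 2 = ((4 : ℝ) * m - 2 * q) * q ^ 2 * C.card := by ring
        _ ≤ _ := h8
    exact le_of_mul_le_mul_right h11 hqp
  have h11 : 4 * (m : ℝ) * (1 - η) * C.card ≤ ((4 : ℝ) * m - 2 * q) * C.card := by
    refine mul_le_mul_of_nonneg_right ?_ hC0
    nlinarith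
  have h12 : 4 * (m : ℝ) * (M1 + A / q ^ 2) ≤ 4 * m * ((M1 : ℝ) + 4 * A / (η * m) ^ 2) :=
    mul_le_mul_of_nonneg_left (by linarith) (by positivity)
  linarith

end SYS
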