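import Pool.Agent.SYS.LP.Defs

/-!
# SYS-LP-Dst: distance
Walks: `Tri.walk_append`, `Tri.walk_rev` (the reversed walk has the same length), `Tri.walk_single`.
* `dle_conn`: the set of darts `d` such that some walk goes from `u` to `T.tl d` is closed under `T.a` (`tl (a d) = hd d`, one more
  step `d`) and under `T.f` (`Tri.tl_f`); every vertex is `T.tl d` for some `d` (`Quotient.exists_rep`), `u = T.tl d0`.
* `dle_iff`: `Nat.sInf_mem`, `Nat.sInf_le` and `Dle.mono`.  The rest follows from it.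
-/

namespace SYS

open Classical SST GNH

variable {D : Type} {T : Tri D}

theorem Dle.refl (u : T.V) : Dle T 0 u u := by
  exact ⟨[], rfl, le_refl _⟩

theorem Dle.mono {j k : ℕ} {u v : T.V} (h : Dle T j u v) (hjk : j ≤ k) : Dle T k u v := by
  obtain ⟨l, hl, hk⟩ := h
  exact ⟨l, hl, hk.trans hjk⟩

theorem Dle.symm {k : ℕ} {u v : T.V} (h : Dle T k u v) : Dle T k v u := by
  obtain ⟨l, hl, hk⟩ := h
  refine ⟨(l.map T.a).reverse, T.walk_rev hl, ?_⟩
  rw [List.length_reverse, List.length_map]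
  exact hk

theorem Dle.trans {j k : ℕ} {u v w : T.V} (h : Dle T j u v) (h' : Dle T k v w) : Dle T (j + k) u w := by
  obtain ⟨l, hl, hk⟩ := h
  obtain ⟨l', hl', hk'⟩ := h'
  refine ⟨l ++ l', T.walk_append hl hl', ?_⟩
  rw [List.length_append]
  exact Nat.add_le_add hk hk'

theorem dle_hd (T : Tri D) (d : D) : Dle T 1 (T.tl d) (T.hd d) := by
  exact ⟨[d], T.walk_single d, le_refl _⟩

theorem dle_zero {u v : T.V} (h : Dle T 0 u v) : u = v := by
  obtain ⟨l, hl, hk⟩ := h
  have h0 : l = [] := List.eq_nil_of_length_eq_zero (Nat.le_zero.mp hk)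
  rw [h0] at hl
  exact hl

theorem dle_conn (hT : T.Conn) (u v : T.V) : ∃ k, Dle T k u v := by
  obtain ⟨d0, hd0⟩ : ∃ d : D, T.tl d = u := Quotient.exists_rep u
  obtain ⟨e0, he0⟩ : ∃ d : D, T.tl d = v := Quotient.exists_rep v
  have hS : {d : D | ∃ k, Dle T k u (T.tl d)} = Set.univ := by
    apply hT
    · refine ⟨d0, 0, ?_⟩
      rw [hd0]
      exact Dle.refl u
    · rintro d ⟨k, hk⟩
      have h1 : Dle T (k + 1) u (T.hd d) := hk.trans (dle_hd T d)
      refine ⟨⟨k + 1, h1⟩, ⟨k + 1, ?_⟩⟩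
      rw [T.tl_f]
      exact h1
  have h2 : e0 ∈ {d : D | ∃ k, Dle T k u (T.tl d)} := by
    rw [hS]
    exact Set.mem_univ _
  obtain ⟨k, hk⟩ := h2
  rw [he0] at hk
  exact ⟨k, hk⟩

theorem dle_iff (hT : T.Conn) (u v : T.V) (k : ℕ) : Dle T k u v ↔ dst T u v ≤ k := by
  constructor
  · intro h
    exact Nat.sInf_le h
  · intro h
    have h1 : dst T u v ∈ {k | Dle T k u v} := Nat.sInf_mem (dle_conn hT u v)
    exact Dle.mono h1 h

theorem dst_self (T : Tri D) (u : T.V) : dst T u u = 0 := by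
  apply Nat.le_zero.mp
  exact Nat.sInf_le (Dle.refl u)

theorem dst_comm (T : Tri D) (u v : T.V) : dst T u v = dst T v u := by
  have h : {k | Dle T k u v} = {k | Dle T k v u} := by
    ext k
    exact ⟨fun h => h.symm, fun h => h.symm⟩
  unfold dst
  rw [h]

theorem dst_tri (hT : T.Conn) (u v w : T.V) : dst T u w ≤ dst T u v + dst T v w := by
  rw [← dle_iff hT]
  exact ((dle_iff hT u v _).mpr (le_refl _)).trans ((dle_iff hT v w _).mpr (le_refl _))

/-- The distance to `y` changes by at most `1` along a dart. -/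
theorem dst_lip (hT : T.Conn) (y : T.V) (d : D) :
    dst T y (T.tl d) ≤ dst T y (T.hd d) + 1 ∧ dst T y (T.hd d) ≤ dst T y (T.tl d) + 1 := by
  constructor
  · rw [← dle_iff hT]
    exact ((dle_iff hT y (T.hd d) _).mpr (le_refl _)).trans (dle_hd T d).symm
  · rw [← dle_iff hT]
    exact ((dle_iff hT y (T.tl d) _).mpr (le_refl _)).trans (dle_hd T d)

/-- A walk of minimal length. -/
theorem dst_walk (hT : T.Conn) (u v : T.V) : ∃ c : List D, T.IsWalk u c v ∧ c.length = dst T u v := by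
  obtain ⟨l, hl, hk⟩ := (dle_iff hT u v (dst T u v)).mpr (le_refl _)
  exact ⟨l, hl, le_antisymm hk (Nat.sInf_le ⟨l, hl, le_refl _⟩)⟩

theorem dst_le_length (T : Tri D) {u v : T.V} {c : List D} (h : T.IsWalk u c v) : dst T u v ≤ c.length := by
  exact Nat.sInf_le ⟨c, h, le_refl _⟩

end SYS
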