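import Pool.Agent.SYS.LP.Defs

/-!
# SYS-LP-Wk: parts of a periodic walk
* `st_add`: `List.range_add` (or `List.ext_getElem`).  `st_walk`: induction on `k` (`st_succ`, `walk`).
* `st_period`: `st w (i + l) k = st w i k` by `per`.
* `st_closed`: `st_walk` and `w (i + l) = w i`.
* `chain_shift`: `st w 0 (i + l) = st w 0 i ++ st w i l` and `st w 0 (l + i) = st w 0 l ++ st w l i = st w 0 l ++ st w 0 i`:
  compare the chains (`Tri.chain_append`).
* `hol_shift`: the same equation of lists for `hol` (`hol_append`).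
* `pot`: the part of length `k` from `i` has holonomy `P i`⁻¹ * `P (i + k)`, `P i = hol l (st w 0 i)`: `st_add` with `0`.
* `lnk` (`i ≤ j`: `α = st w i (j - i)`; `j < i`: `α = ((st w j (i - j)).map T.a).reverse`, `Flat.hol_rev`, `Tri.walk_rev`).
-/

namespace SYS

open Classical SST GNH

variable {D : Type} {T : Tri D} {w : ℕ → D} {l : ℕ}

theorem st_length (w : ℕ → D) (i k : ℕ) : (st w i k).length = k := by
  simp [st]

theorem st_zero (w : ℕ → D) (i : ℕ) : st w i 0 = [] := by
  simp [st]

theorem st_succ (w : ℕ → D) (i k : ℕ) : st w i (k + 1) = st w i k ++ [w (i + k)] := by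
  simp [st, List.range_succ]

theorem st_add (w : ℕ → D) (i j k : ℕ) : st w i (j + k) = st w i j ++ st w (i + j) k := by
  induction k with
  | zero => rw [Nat.add_zero, st_zero, List.append_nil]
  | succ k ih => rw [← Nat.add_assoc, st_succ, ih, st_succ, List.append_assoc, Nat.add_assoc]

theorem mem_st {w : ℕ → D} {i k : ℕ} {d : D} : d ∈ st w i k ↔ ∃ j < k, w (i + j) = d := by
  unfold st
  rw [List.mem_map]
  constructor
  · rintro ⟨j, hj, rfl⟩
    exact ⟨j, List.mem_range.1 hj, rfl⟩
  · rintro ⟨j, hj, rfl⟩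
    exact ⟨j, List.mem_range.2 hj, rfl⟩

theorem st_shift (w : ℕ → D) (a i k : ℕ) : st (fun j => w (j + a)) i k = st w (i + a) k := by
  unfold st
  refine List.map_congr_left fun j _ => ?_
  show w (i + j + a) = w (i + a + j)
  congr 1
  omega

theorem PW.st_period (h : PW T w l) (i k : ℕ) : st w (i + l) k = st w i k := by
  unfold st
  refine List.map_congr_left fun j _ => ?_
  have h1 : i + l + j = i + j + l := by omega
  rw [h1]
  exact h.per (i + j)

theorem PW.st_walk (h : PW T w l) (i k : ℕ) : T.IsWalk (T.tl (w i)) (st w i k) (T.tl (w (i + k))) := by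
  induction k with
  | zero =>
    rw [st_zero]
    rfl
  | succ k ih =>
    rw [st_succ]
    refine T.walk_append ih ?_
    have h1 := T.walk_single (w (i + k))
    rw [h.walk (i + k)] at h1
    exact h1

theorem PW.st_closed (h : PW T w l) (i : ℕ) : T.IsWalk (T.tl (w i)) (st w i l) (T.tl (w i)) := by
  have h1 := h.st_walk i l
  rw [h.per i] at h1
  exact h1

private theorem wk_two (h : PW T w l) (i : ℕ) : st w 0 i ++ st w i l = st w 0 l ++ st w 0 i := by
  have h1 := st_add w 0 i l
  have h2 := st_add w 0 l i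
  have h3 := h.st_period 0 i
  rw [Nat.zero_add] at h1 h2 h3
  rw [h3] at h2
  rw [← h1, ← h2, Nat.add_comm]

theorem PW.chain_shift (h : PW T w l) (i : ℕ) (d : D) : T.chain (st w i l) d = T.chain (st w 0 l) d := by
  have h1 := congrArg (fun c => T.chain c d) (wk_two h i)
  have h2 : T.chain (st w 0 i ++ st w i l) d = T.chain (st w 0 l ++ st w 0 i) d := h1
  rw [Tri.chain_append, Tri.chain_append] at h2
  linarith

theorem PW.hol_shift (h : PW T w l) {G : Type} [Group G] (lab : D → G) (i : ℕ) :
    hol lab (st w i l) = (hol lab (st w 0 i))⁻¹ * hol lab (st w 0 l) * hol lab (st w 0 i) := by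
  have h1 := congrArg (hol lab) (wk_two h i)
  rw [hol_append, hol_append] at h1
  rw [mul_assoc, ← h1, inv_mul_cancel_left]

theorem PW.shift (h : PW T w l) (a : ℕ) : PW T (fun i => w (i + a)) l := by
  refine ⟨h.pos, fun i => ?_, fun i => ?_⟩
  · show w (i + l + a) = w (i + a)
    have h1 : i + l + a = i + a + l := by omega
    rw [h1]
    exact h.per (i + a)
  · show T.hd (w (i + a)) = T.tl (w (i + 1 + a))
    have h1 : i + 1 + a = i + a + 1 := by omega
    rw [h1]
    exact h.walk (i + a)

theorem PW.add_mul (h : PW T w l) (i n : ℕ) : w (i + n * l) = w i := by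
  induction n with
  | zero => rw [Nat.zero_mul, Nat.add_zero]
  | succ n ih =>
    have h1 : i + (n + 1) * l = i + n * l + l := by ring
    rw [h1, h.per, ih]

/-- The holonomy of a part. -/
theorem hol_st {G : Type} [Group G] (lab : D → G) (w : ℕ → D) (i k : ℕ) :
    hol lab (st w i k) = (hol lab (st w 0 i))⁻¹ * hol lab (st w 0 (i + k)) := by
  have h1 := st_add w 0 i k
  rw [Nat.zero_add] at h1
  rw [h1, hol_append, inv_mul_cancel_left]

/-- The part of the walk between the times `i` and `j`, in either direction. -/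
theorem PW.lnk (h : PW T w l) (i j : ℕ) : ∃ α : List D, T.IsWalk (T.tl (w i)) α (T.tl (w j)) ∧ α.length = ab i j ∧
    ∀ (G : Type) (_ : Group G) (lab : D → G), Flat T lab →
      hol lab α = (hol lab (st w 0 i))⁻¹ * hol lab (st w 0 j) := by
  rcases le_total i j with hij | hij
  · refine ⟨st w i (j - i), ?_, ?_, ?_⟩
    · have h1 := h.st_walk i (j - i)
      rw [Nat.add_sub_cancel' hij] at h1
      exact h1
    · rw [st_length]
      unfold ab
      omega
    · intro G _ lab _
      rw [hol_st, Nat.add_sub_cancel' hij]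
  · refine ⟨((st w j (i - j)).map T.a).reverse, ?_, ?_, ?_⟩
    · have h1 := h.st_walk j (i - j)
      rw [Nat.add_sub_cancel' hij] at h1
      exact T.walk_rev h1
    · rw [List.length_reverse, List.length_map, st_length]
      unfold ab
      omega
    · intro G _ lab hf
      rw [hf.hol_rev, hol_st, Nat.add_sub_cancel' hij, mul_inv_rev, inv_inv]

theorem PW.dle_ab (h : PW T w l) (i j : ℕ) : Dle T (ab i j) (T.tl (w i)) (T.tl (w j)) := by
  obtain ⟨α, h1, h2, -⟩ := h.lnk i j
  exact ⟨α, h1, h2.le⟩

end SYS
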