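import Pool.Agent.SYS.LP.Wk
import Pool.Agent.SYS.LP.Dst

/-!
# SYS-LP-Ctr: the centres
A set `C` of vertices of the walk with pairwise distance `> R`, connected by steps `R + 1`, with the maximal number of elements
covers the walk by balls of radius `R`.
-/

namespace SYS

open Classical SST GNH

variable {D : Type} {T : Tri D} {w : ℕ → D} {l : ℕ}

private structure Adm (T : Tri D) (w : ℕ → D) (R : ℕ) (C : Finset T.V) : Prop where
  ne : C.Nonempty
  on : ∀ x ∈ C, ∃ i, x = T.tl (w i)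
  sep : ∀ x ∈ C, ∀ y ∈ C, x ≠ y → ¬ Dle T R x y
  con : ∀ Z ⊆ C, Z.Nonempty → Z ≠ C → ∃ x ∈ Z, ∃ y ∈ C \ Z, Dle T (R + 1) x y

private theorem adm_one (T : Tri D) (w : ℕ → D) (R : ℕ) : Adm T w R {T.tl (w 0)} where
  ne := Finset.singleton_nonempty _
  on := by
    intro x hx
    exact ⟨0, Finset.mem_singleton.1 hx⟩
  sep := by
    intro x hx y hy hxy
    rw [Finset.mem_singleton] at hx hy
    exact (hxy (hx.trans hy.symm)).elim
  con := by
    intro Z hZ h1 h2
    exact (h2 ((Finset.subset_singleton_iff.1 hZ).resolve_left h1.ne_empty)).elim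

private theorem adm_insert {R : ℕ} {C : Finset T.V} (h : Adm T w R C) {v x1 : T.V} (hv : ∃ i, v = T.tl (w i))
    (hn : ∀ x ∈ C, ¬ Dle T R x v) (hvC : v ∉ C) (hx1 : x1 ∈ C) (h1 : Dle T (R + 1) x1 v) :
    Adm T w R (insert v C) where
  ne := Finset.insert_nonempty _ _
  on := by
    intro x hx
    rcases Finset.mem_insert.1 hx with rfl | hx
    · exact hv
    · exact h.on x hx
  sep := by
    intro x hx y hy hxy
    rcases Finset.mem_insert.1 hx with hx1 | hx1
    · rcases Finset.mem_insert.1 hy with hy1 | hy1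
      · exact (hxy (hx1.trans hy1.symm)).elim
      · rw [hx1]
        exact fun hd => hn y hy1 hd.symm
    · rcases Finset.mem_insert.1 hy with hy1 | hy1
      · rw [hy1]
        exact hn x hx1
      · exact h.sep x hx1 y hy1 hxy
  con := by
    intro Z hZ hne hZC
    by_cases hvZ : v ∈ Z
    · by_cases hxZ : x1 ∈ Z
      · have hsub : Z.erase v ⊆ C := by
          intro z hz
          rw [Finset.mem_erase] at hz
          exact (Finset.mem_insert.1 (hZ hz.2)).resolve_left hz.1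
        have hne' : (Z.erase v).Nonempty := by
          refine ⟨x1, Finset.mem_erase.2 ⟨?_, hxZ⟩⟩
          rintro rfl
          exact hvC hx1
        have hne2 : Z.erase v ≠ C := by
          intro he
          apply hZC
          rw [← he, Finset.insert_erase hvZ]
        obtain ⟨x, hx, y, hy, hd⟩ := h.con _ hsub hne' hne2
        rw [Finset.mem_sdiff] at hy
        refine ⟨x, (Finset.mem_erase.1 hx).2, y, Finset.mem_sdiff.2 ⟨Finset.mem_insert_of_mem hy.1, fun hyZ => hy.2 ?_⟩, hd⟩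
        refine Finset.mem_erase.2 ⟨?_, hyZ⟩
        rintro rfl
        exact hvC hy.1
      · exact ⟨v, hvZ, x1, Finset.mem_sdiff.2 ⟨Finset.mem_insert_of_mem hx1, hxZ⟩, h1.symm⟩
    · have hsub : Z ⊆ C := by
        intro z hz
        refine (Finset.mem_insert.1 (hZ hz)).resolve_left ?_
        rintro rfl
        exact hvZ hz
      by_cases hZ' : Z = C
      · subst hZ'
        exact ⟨x1, hx1, v, Finset.mem_sdiff.2 ⟨Finset.mem_insert_self _ _, hvZ⟩, h1⟩
      · obtain ⟨x, hx, y, hy, hd⟩ := h.con Z hsub hne hZ'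
        rw [Finset.mem_sdiff] at hy
        exact ⟨x, hx, y, Finset.mem_sdiff.2 ⟨Finset.mem_insert_of_mem hy.1, hy.2⟩, hd⟩

theorem exists_centres [Finite D] (h : PW T w l) (R : ℕ) : ∃ C : Finset T.V, C.Nonempty ∧
    (∀ x ∈ C, ∃ i, x = T.tl (w i)) ∧ (∀ x ∈ C, ∀ y ∈ C, x ≠ y → ¬ Dle T R x y) ∧
    (∀ Z ⊆ C, Z.Nonempty → Z ≠ C → ∃ x ∈ Z, ∃ y ∈ C \ Z, Dle T (R + 1) x y) ∧
    ∀ i, ∃ x ∈ C, Dle T R x (T.tl (w i)) := by
  haveI : Finite T.V := by
    unfold Tri.V
    infer_instance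
  obtain ⟨C, hC, hmax⟩ := Set.exists_max_image {C : Finset T.V | Adm T w R C} Finset.card (Set.toFinite _)
    ⟨_, adm_one T w R⟩
  have hC' : Adm T w R C := hC
  refine ⟨C, hC'.ne, hC'.on, hC'.sep, hC'.con, ?_⟩
  by_contra hcon
  push Not at hcon
  obtain ⟨t, ht⟩ := hcon
  obtain ⟨x0, hx0⟩ := hC'.ne
  obtain ⟨i0, hi0⟩ := hC'.on x0 hx0
  have hle : i0 ≤ t + i0 * l := le_trans (Nat.le_mul_of_pos_right i0 h.pos) (Nat.le_add_left _ _)
  have hex : ∃ j, ∀ x ∈ C, ¬ Dle T R x (T.tl (w (i0 + j))) := by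
    refine ⟨t + i0 * l - i0, fun x hx => ?_⟩
    have h2 : i0 + (t + i0 * l - i0) = t + i0 * l := by omega
    rw [h2, h.add_mul]
    exact ht x hx
  obtain ⟨j0, hj0, hmin⟩ : ∃ j, (∀ x ∈ C, ¬ Dle T R x (T.tl (w (i0 + j)))) ∧
      ∀ j' < j, ¬ ∀ x ∈ C, ¬ Dle T R x (T.tl (w (i0 + j'))) :=
    ⟨Nat.find hex, Nat.find_spec hex, fun j' hj' => Nat.find_min hex hj'⟩
  have hj1 : j0 ≠ 0 := by
    rintro rfl
    refine hj0 x0 hx0 ?_
    rw [Nat.add_zero, ← hi0]
    exact (Dle.refl x0).mono (Nat.zero_le _)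
  obtain ⟨j1, rfl⟩ := Nat.exists_eq_succ_of_ne_zero hj1
  have h3 := hmin j1 (Nat.lt_succ_self _)
  push Not at h3
  obtain ⟨x1, hx1, hd1⟩ := h3
  have h4 : Dle T (R + 1) x1 (T.tl (w (i0 + (j1 + 1)))) := by
    have h5 := h.walk (i0 + j1)
    have h6 : i0 + (j1 + 1) = i0 + j1 + 1 := by ring
    rw [h6, ← h5]
    exact hd1.trans (dle_hd T _)
  have hvC : T.tl (w (i0 + (j1 + 1))) ∉ C := by
    intro hv
    exact hj0 _ hv ((Dle.refl _).mono (Nat.zero_le _))
  have h7 := hmax _ (adm_insert hC' ⟨_, rfl⟩ hj0 hvC hx1 h4)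
  rw [Finset.card_insert_of_notMem hvC] at h7
  omega

end SYS
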