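import Pool.Agent.SYS.LP.Nxd
import Pool.Agent.SYS.LP.Dst

/-!
# SYS-LP-Crv: a level curve that starts at a dart of the chain
`c d = k d - k (a d)`, `k (f d) = k d`.  With `N` of `exists_next`: for descending `d`, `k (N d) = k d + c (N d)`
[`k (a (N d)) = k d` as `a (N d)` is in the face of `d`; `c (N d) = k (N d) - k (a (N d))`].
`N` and `N⁻¹` preserve the descending darts and `b (tl _)` [if `d` is descending and `N⁻¹ d` is not, then `N (N⁻¹ d) = N⁻¹ d`].
`d_i = (N ^ i) e0`, `d_{-i} = (N⁻¹ ^ i) e0`: descending, same level, `Dle T (s + i) x (tl d_{±i})`.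
(1) no `1 ≤ i ≤ r` has `d_i = e0`: take the least such `i`; for `1 ≤ j < i` `c d_j = 0` by `hu` (as `s + j ≤ q` and `d_j ≠ e0`), so
    `k e0 = k d_i = k d_{i-1} + c d_i = k e0 + c e0`, contradiction with `he`.
(2) so `d_0, …, d_r` are distinct, `c d_i = 0` for `1 ≤ i ≤ r`, `k d_i = k e0` for `0 ≤ i ≤ r`; also `d_0, d_{-1}, …, d_{-r}` are
    distinct, `c d_{-i} = 0` for `1 ≤ i ≤ r`, `k d_{-i} = k d_{-1}` for `1 ≤ i ≤ r`.
(3) `k e0 - k d_{-1} = c e0 ≠ 0`: if `k e0 ≠ 0` the darts `d_0, …, d_{r-1}` (or up to `r`), else the darts `d_{-1}, …, d_{-r}` are `r` elements of the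
    set (`Finset.card_le_card_of_injOn` / `Set.ncard_le_ncard` with the image of `Finset.range r`; `D` finite).
-/

namespace SYS

open Classical SST GNH

variable {D : Type}

private theorem crv_card [Finite D] {S : Set D} (g : ℕ → D) (r : ℕ) (hg : ∀ i < r, g i ∈ S)
    (hi : ∀ i < r, ∀ j < r, i < j → g i ≠ g j) : r ≤ S.ncard := by
  have h1 : ((Finset.range r).image g).card = r := by
    rw [Finset.card_image_of_injOn, Finset.card_range]
    intro i hi' j hj' hij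
    rw [Finset.mem_coe, Finset.mem_range] at hi' hj'
    rcases Nat.lt_trichotomy i j with h | h | h
    · exact absurd hij (hi i hi' j hj' h)
    · exact h
    · exact absurd hij.symm (hi j hj' i hi' h)
  calc r = ((Finset.range r).image g).card := h1.symm
    _ = (((Finset.range r).image g : Finset D) : Set D).ncard := (Set.ncard_coe_finset _).symm
    _ ≤ S.ncard := by
      refine Set.ncard_le_ncard ?_ (Set.toFinite _)
      intro d hd
      rw [Finset.mem_coe, Finset.mem_image] at hd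
      obtain ⟨i, hi', rfl⟩ := hd
      exact hg i (Finset.mem_range.1 hi')

private theorem crv_pow (σ : Equiv.Perm D) (n : ℕ) (d : D) : (σ ^ (n + 1)) d = σ ((σ ^ n) d) := by
  rw [pow_succ', Equiv.Perm.mul_apply]

theorem level_count [Finite D] (T : Tri D) (b : T.V → ℕ)
    (hb : ∀ d, b (T.tl d) ≤ b (T.hd d) + 1 ∧ b (T.hd d) ≤ b (T.tl d) + 1) {k c : D → ℤ} (hk : ∀ d, k (T.f d) = k d)
    (hc : ∀ d, c d = k d - k (T.a d)) {x : T.V} {s r q : ℕ} (hq : s + r ≤ q) {e0 : D} (h0 : b (T.tl e0) = b (T.hd e0) + 1)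
    (hx : Dle T s x (T.tl e0)) (he : c e0 ≠ 0)
    (hu : ∀ e, b (T.tl e) = b (T.hd e) + 1 → b (T.tl e) = b (T.tl e0) → Dle T q x (T.tl e) → c e ≠ 0 → e = e0) :
    r ≤ {d | b (T.tl d) = b (T.tl e0) ∧ Dle T q x (T.tl d) ∧ k d ≠ 0}.ncard := by
  obtain ⟨N, hN1, hN2⟩ := exists_next T b hb
  -- one step
  have step : ∀ d, b (T.tl d) = b (T.hd d) + 1 → b (T.tl (N d)) = b (T.hd (N d)) + 1 ∧ b (T.tl (N d)) = b (T.tl d) ∧
      Dle T 1 (T.tl d) (T.tl (N d)) ∧ k (N d) = k d + c (N d) := by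
    intro d hd
    obtain ⟨h1, h2, h3, h4⟩ := hN2 d hd
    refine ⟨by rw [h1, h2, hd], h1, h3, ?_⟩
    have h5 : k (T.a (N d)) = k d := by
      rcases h4 with h4 | h4
      · rw [h4, hk]
      · rw [h4, hk, hk]
    rw [hc (N d), h5]
    ring
  have back : ∀ d, b (T.tl d) = b (T.hd d) + 1 → b (T.tl (N⁻¹ d)) = b (T.hd (N⁻¹ d)) + 1 ∧
      b (T.tl (N⁻¹ d)) = b (T.tl d) ∧ Dle T 1 (T.tl d) (T.tl (N⁻¹ d)) ∧ k d = k (N⁻¹ d) + c d := by
    intro d hd
    have h1 : N (N⁻¹ d) = d := by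
      rw [← Equiv.Perm.mul_apply, mul_inv_cancel, Equiv.Perm.one_apply]
    have h2 : b (T.tl (N⁻¹ d)) = b (T.hd (N⁻¹ d)) + 1 := by
      by_contra h3
      have h4 := hN1 _ h3
      rw [h1] at h4
      rw [← h4] at h3
      exact h3 hd
    obtain ⟨-, h4, h5, h6⟩ := step _ h2
    rw [h1] at h4 h5 h6
    exact ⟨h2, h4.symm, h5.symm, h6⟩
  have up : ∀ i : ℕ, b (T.tl ((N ^ i) e0)) = b (T.hd ((N ^ i) e0)) + 1 ∧ b (T.tl ((N ^ i) e0)) = b (T.tl e0) ∧
      Dle T (s + i) x (T.tl ((N ^ i) e0)) := by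
    intro i
    induction i with
    | zero => exact ⟨h0, rfl, hx⟩
    | succ i ih =>
      obtain ⟨h1, h2, h3⟩ := ih
      obtain ⟨h4, h5, h6, -⟩ := step _ h1
      rw [crv_pow]
      exact ⟨h4, h5.trans h2, h3.trans h6⟩
  have dn : ∀ i : ℕ, b (T.tl ((N⁻¹ ^ i) e0)) = b (T.hd ((N⁻¹ ^ i) e0)) + 1 ∧ b (T.tl ((N⁻¹ ^ i) e0)) = b (T.tl e0) ∧
      Dle T (s + i) x (T.tl ((N⁻¹ ^ i) e0)) := by
    intro i
    induction i with
    | zero => exact ⟨h0, rfl, hx⟩
    | succ i ih =>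
      obtain ⟨h1, h2, h3⟩ := ih
      obtain ⟨h4, h5, h6, -⟩ := back _ h1
      rw [crv_pow]
      exact ⟨h4, h5.trans h2, h3.trans h6⟩
  have hc0 : ∀ i ≤ r, (N ^ i) e0 ≠ e0 → c ((N ^ i) e0) = 0 := by
    intro i hi hne
    by_contra h1
    obtain ⟨h2, h3, h4⟩ := up i
    exact hne (hu _ h2 h3 (h4.mono (by omega)) h1)
  have hc1 : ∀ i ≤ r, (N⁻¹ ^ i) e0 ≠ e0 → c ((N⁻¹ ^ i) e0) = 0 := by
    intro i hi hne
    by_contra h1
    obtain ⟨h2, h3, h4⟩ := dn i
    exact hne (hu _ h2 h3 (h4.mono (by omega)) h1)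
  -- no return
  have hne : ∀ i : ℕ, 1 ≤ i → i ≤ r → (N ^ i) e0 ≠ e0 := by
    by_contra hcon
    push Not at hcon
    obtain ⟨i, hi⟩ := hcon
    have hex : ∃ i : ℕ, 1 ≤ i ∧ i ≤ r ∧ (N ^ i) e0 = e0 := ⟨i, hi⟩
    obtain ⟨h1, h2, h3⟩ := Nat.find_spec hex
    have hmin := fun j (hj : j < Nat.find hex) => Nat.find_min hex hj
    generalize Nat.find hex = n at *
    have key : ∀ j < n, k ((N ^ j) e0) = k e0 := by
      intro j
      induction j with
      | zero => intro _; rfl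
      | succ j ih =>
        intro hj
        have h4 := ih (by omega)
        obtain ⟨-, -, -, h5⟩ := step _ (up j).1
        rw [← crv_pow] at h5
        rw [h5, h4, hc0 (j + 1) (by omega) fun h6 => hmin (j + 1) hj ⟨by omega, by omega, h6⟩, add_zero]
    obtain ⟨-, -, -, h5⟩ := step _ (up (n - 1)).1
    rw [← crv_pow, Nat.sub_add_cancel h1, h3, key (n - 1) (by omega)] at h5
    apply he
    linarith
  have hne' : ∀ i : ℕ, 1 ≤ i → i ≤ r → (N⁻¹ ^ i) e0 ≠ e0 := by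
    intro i h1 h2 h3
    refine hne i h1 h2 ?_
    rw [inv_pow, Equiv.Perm.inv_eq_iff_eq] at h3
    exact h3.symm
  have hku : ∀ i ≤ r, k ((N ^ i) e0) = k e0 := by
    intro i
    induction i with
    | zero => intro _; rfl
    | succ i ih =>
      intro hi
      obtain ⟨-, -, -, h5⟩ := step _ (up i).1
      rw [← crv_pow] at h5
      rw [h5, ih (by omega), hc0 (i + 1) hi (hne _ (by omega) hi), add_zero]
  have hkd : ∀ i : ℕ, i + 1 ≤ r + 1 → k ((N⁻¹ ^ (i + 1)) e0) = k e0 - c e0 := by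
    intro i
    induction i with
    | zero =>
      intro _
      obtain ⟨-, -, -, h5⟩ := back _ h0
      rw [zero_add, pow_one]
      linarith
    | succ i ih =>
      intro hi
      obtain ⟨-, -, -, h5⟩ := back _ (dn (i + 1)).1
      rw [← crv_pow, hc1 (i + 1) (by omega) (hne' _ (by omega) (by omega)), ih (by omega), add_zero] at h5
      exact h5.symm
  by_cases hk0 : k e0 = 0
  · refine crv_card (fun i => (N⁻¹ ^ (i + 1)) e0) r (fun i hi => ?_) fun i hi j hj hij => ?_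
    · obtain ⟨h2, h3, h4⟩ := dn (i + 1)
      refine ⟨h3, h4.mono (by omega), ?_⟩
      rw [hkd i (by omega), hk0]
      omega
    · intro h1
      have h2 : (N⁻¹ ^ (j + 1)) e0 = (N⁻¹ ^ (i + 1)) ((N⁻¹ ^ (j - i)) e0) := by
        rw [← Equiv.Perm.mul_apply, ← pow_add]
        congr 2
        omega
      rw [h2] at h1
      exact hne' (j - i) (by omega) (by omega) ((N⁻¹ ^ (i + 1)).injective h1.symm)
  · refine crv_card (fun i => (N ^ i) e0) r (fun i hi => ?_) fun i hi j hj hij => ?_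
    · obtain ⟨h2, h3, h4⟩ := up i
      refine ⟨h3, h4.mono (by omega), ?_⟩
      rw [hku i (by omega)]
      exact hk0
    · intro h1
      have h2 : (N ^ j) e0 = (N ^ i) ((N ^ (j - i)) e0) := by
        rw [← Equiv.Perm.mul_apply, ← pow_add]
        congr 2
        omega
      rw [h2] at h1
      exact hne (j - i) (by omega) (by omega) ((N ^ i).injective h1.symm)

end SYS
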