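import Pool.Agent.SYS.LP.Gdl
import Pool.Agent.SYS.LP.Crv

/-!
# SYS-LP-Cnt: if the walk passes once near the centre then the 2-chain has many faces there
`x = tl (w (2 m))`, `y = tl (w (2 m + q))`, `b v = dst T y v` (`dst_lip`), `c d = T.chain (st w 0 l) d`.
For `2 m - q ≤ p ≤ 2 m + q`: `b (tl (w p)) = 2 m + q - p` (`geod_dst` with `i = p`, `i' = 2 m + q`: `max = 2 m + q ≤ min + 2 m`, as
`2 m + q ≤ 2 m - q + 2 m`; `dst_comm`).  `4 m < l` (`long`).
(U) Let `2 m - q < p < 2 m + q`, `e` a dart with `b (tl e) = b (hd e) + 1`, `b (tl e) = 2 m + q - p`, `Dle T q x (tl e)`, `c e ≠ 0`.  Then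
    `e = w p`: by `Tri.chain_of_not_mem` `e = w t` or `a e = w t` for some `t < l` (`mem_st`).
    - `e = w t`: `h1` gives `2 m - q ≤ t ≤ 2 m + q`, so `b (tl (w t)) = 2 m + q - t`, `t = p`.
    - `a e = w t`: `tl e = hd (w t) = tl (w (t + 1))` (`PW.walk`, `Tri.hd`, `T.aa`), `hd e = tl (w t)`.  `t + 1 < l` [else `tl e = tl (w l) = tl (w 0)` and `h1`
      for `0` gives `2 m ≤ q`], `h1`: `2 m - q ≤ t + 1 ≤ 2 m + q`, so `t + 1 = p`, `t ≥ 2 m - q`, `b (hd e) = 2 m + q - t = b (tl e) + 1`, contradiction.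
(C) for `2 m - q < p < 2 m + q`: `c (w p) ≠ 0`: it is `1`: `chain (st w 0 l) (w p) = Σ_{j < l} (ind (w j) (w p) - ind (w j) (a (w p)))`
    (`List.map_map`, `Finset.sum_range` / `List.sum_range`...); `w j = w p`, `j < l`, implies `j = p` (same argument as in (U)), and
    `w j = a (w p)` is impossible (second case of (U) for `e = w p`).  A way without sums: `st w 0 l = st w 0 p ++ [w p] ++ st w (p + 1) (l - p - 1)`,
    `w p` and `a (w p)` are not in the two outer lists (`chain_append`, `chain_of_not_mem`), and `chain [w p] (w p) = 1` as `a (w p) ≠ w p`.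
(L) `level_count` with `e0 = w p`, `s = ab p (2 m)`, `r = q - ab p (2 m)` (`PW.dle_ab`): at least `q - ab p (2 m)` darts `d` with
    `b (tl d) = 2 m + q - p`, `Dle T q x (tl d)`, `k d ≠ 0`.
(S) the sets for different `p` are disjoint: the union over `p ∈ Ioo (2 m - q) (2 m + q)` (`Finset.card_biUnion` / `Set.ncard`) has at least
    `Σ_p (q - ab p (2 m)) = q ^ 2` elements [`sum_tent`].
-/

namespace SYS

open Classical SST GNH

variable {D : Type} {T : Tri D} {w : ℕ → D} {l m : ℕ}

theorem sum_tent (m q : ℕ) (hq : q ≤ 2 * m) : ∑ p ∈ Finset.Ioo (2 * m - q) (2 * m + q), (q - ab p (2 * m)) = q ^ 2 := by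
  have h1 : ∑ p ∈ Finset.Ioo (2 * m - q) (2 * m + q), (q - ab p (2 * m)) =
      ∑ p ∈ Finset.Ico (2 * m - q) (2 * m + q), (q - ab p (2 * m)) := by
    refine Finset.sum_subset (fun p hp => ?_) fun p hp hp' => ?_
    · rw [Finset.mem_Ioo] at hp
      rw [Finset.mem_Ico]
      omega
    · rw [Finset.mem_Ico] at hp
      rw [Finset.mem_Ioo] at hp'
      unfold ab
      omega
  rw [h1, ← Finset.sum_Ico_consecutive _ (show 2 * m - q ≤ 2 * m by omega) (show 2 * m ≤ 2 * m + q by omega),
    Finset.sum_Ico_eq_sum_range, Finset.sum_Ico_eq_sum_range, show 2 * m - (2 * m - q) = q by omega,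
    show 2 * m + q - 2 * m = q by omega, ← Finset.sum_add_distrib]
  have h2 : ∀ i ∈ Finset.range q, (q - ab (2 * m - q + i) (2 * m)) + (q - ab (2 * m + i) (2 * m)) = q := by
    intro i hi
    rw [Finset.mem_range] at hi
    unfold ab
    omega
  rw [Finset.sum_congr rfl h2, Finset.sum_const, Finset.card_range, smul_eq_mul, sq]

theorem Shw.faces [Finite D] (hT : T.Conn) (h : Shw T w l) {k : D → ℤ} (hk : ∀ d, k (T.f d) = k d)
    (hc : ∀ d, T.chain (st w 0 l) d = k d - k (T.a d))
    (hx : ∀ c, T.IsWalk (T.tl (w (2 * m))) c (T.tl (w (2 * m))) → c.length ≤ 4 * m → T.NullHtp c) {q : ℕ} (hq : 1 ≤ q) (hqm : q ≤ m)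
    (h1 : ∀ i < l, Dle T q (T.tl (w (2 * m))) (T.tl (w i)) → 2 * m - q ≤ i ∧ i ≤ 2 * m + q) :
    q ^ 2 ≤ {d | Dle T q (T.tl (w (2 * m))) (T.tl d) ∧ k d ≠ 0}.ncard := by
  have hlong := h.long hT hx
  -- the level of the vertices of the walk
  have hB : ∀ p, 2 * m - q ≤ p → p ≤ 2 * m + q → dst T (T.tl (w (2 * m + q))) (T.tl (w p)) = 2 * m + q - p := by
    intro p h2 h3
    rw [dst_comm]
    exact h.geod_dst hT hx h3 (by omega)
  have hnear : ∀ p, 2 * m - q ≤ p → p ≤ 2 * m + q → Dle T q (T.tl (w (2 * m))) (T.tl (w p)) := by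
    intro p h2 h3
    refine (h.toPW.dle_ab (2 * m) p).mono ?_
    unfold ab
    omega
  -- darts of the walk at the level of `w p`
  have hU : ∀ p, 2 * m - q < p → p < 2 * m + q → ∀ e, dst T (T.tl (w (2 * m + q))) (T.tl e) = dst T (T.tl (w (2 * m + q))) (T.hd e) + 1 →
      dst T (T.tl (w (2 * m + q))) (T.tl e) = 2 * m + q - p → Dle T q (T.tl (w (2 * m))) (T.tl e) →
      ∀ t < l, (e = w t ∨ T.a e = w t) → t = p ∧ e = w t := by
    intro p h2 h3 e he1 he2 he3 t ht het
    rcases het with het | het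
    · rw [het] at he2 he3
      obtain ⟨h4, h5⟩ := h1 t ht he3
      rw [hB t h4 h5] at he2
      exact ⟨by omega, het⟩
    · exfalso
      have e1 : T.tl e = T.tl (w (t + 1)) := by
        rw [← h.walk t, ← het]
        exact (T.hd_a e).symm
      have e2 : T.hd e = T.tl (w t) := by
        rw [← het]
        rfl
      have h4 : t + 1 < l := by
        rcases Nat.lt_or_ge (t + 1) l with h5 | h5
        · exact h5
        · exfalso
          have h6 : t + 1 = 0 + l := by omega
          rw [h6, h.per 0] at e1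
          rw [e1] at he3
          have h7 := (h1 0 h.pos he3).1
          omega
      rw [e1] at he3 he2 he1
      obtain ⟨h5, h6⟩ := h1 (t + 1) h4 he3
      rw [hB _ h5 h6] at he2 he1
      rw [e2, hB t (by omega) (by omega)] at he1
      omega
  have hdes : ∀ p, 2 * m - q < p → p < 2 * m + q → dst T (T.tl (w (2 * m + q))) (T.tl (w p)) =
      dst T (T.tl (w (2 * m + q))) (T.hd (w p)) + 1 := by
    intro p h2 h3
    rw [h.walk p, hB p (by omega) (by omega), hB (p + 1) (by omega) (by omega)]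
    omega
  have hC : ∀ p, 2 * m - q < p → p < 2 * m + q → T.chain (st w 0 l) (w p) ≠ 0 := by
    intro p h2 h3
    have hp : p < l := by omega
    have h4 := hU p h2 h3 (w p) (hdes p h2 h3) (hB p (by omega) (by omega)) (hnear p (by omega) (by omega))
    have e1 : st w 0 l = st w 0 p ++ [w p] ++ st w (p + 1) (l - p - 1) := by
      have e2 : l = p + 1 + (l - p - 1) := by omega
      conv_lhs => rw [e2]
      rw [st_add, st_succ, zero_add, zero_add]
    have n1 : w p ∉ st w 0 p := by
      intro h5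
      obtain ⟨j, hj, hj'⟩ := mem_st.1 h5
      rw [zero_add] at hj'
      have := (h4 j (by omega) (Or.inl hj'.symm)).1
      omega
    have n2 : T.a (w p) ∉ st w 0 p := by
      intro h5
      obtain ⟨j, hj, hj'⟩ := mem_st.1 h5
      rw [zero_add] at hj'
      have := (h4 j (by omega) (Or.inr hj'.symm)).1
      omega
    have n3 : w p ∉ st w (p + 1) (l - p - 1) := by
      intro h5
      obtain ⟨j, hj, hj'⟩ := mem_st.1 h5
      have := (h4 (p + 1 + j) (by omega) (Or.inl hj'.symm)).1
      omega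
    have n4 : T.a (w p) ∉ st w (p + 1) (l - p - 1) := by
      intro h5
      obtain ⟨j, hj, hj'⟩ := mem_st.1 h5
      have := (h4 (p + 1 + j) (by omega) (Or.inr hj'.symm)).1
      omega
    rw [e1, T.chain_append, T.chain_append, T.chain_of_not_mem n1 n2, T.chain_of_not_mem n3 n4, T.chain_cons,
      T.chain_nil, Tri.ind_self, Tri.ind_ne (T.ane (w p)).symm]
    norm_num
  -- the count at one level
  have hL : ∀ p, 2 * m - q < p → p < 2 * m + q → q - ab p (2 * m) ≤
      {d | dst T (T.tl (w (2 * m + q))) (T.tl d) = 2 * m + q - p ∧ Dle T q (T.tl (w (2 * m))) (T.tl d) ∧ k d ≠ 0}.ncard := by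
    intro p h2 h3
    have h4 := level_count T (fun v => dst T (T.tl (w (2 * m + q))) v) (fun d => dst_lip hT _ d) (k := k)
      (c := fun d => T.chain (st w 0 l) d) hk hc (x := T.tl (w (2 * m))) (s := ab p (2 * m)) (r := q - ab p (2 * m)) (q := q)
      (by unfold ab; omega) (e0 := w p) (hdes p h2 h3) (by
        have h5 := h.toPW.dle_ab (2 * m) p
        have h6 : ab (2 * m) p = ab p (2 * m) := by unfold ab; omega
        rwa [h6] at h5) (hC p h2 h3) (by
        intro e he1 he2 he3 he4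
        rw [hB p (by omega) (by omega)] at he2
        have h5 : e ∈ st w 0 l ∨ T.a e ∈ st w 0 l := by
          by_contra h6
          rw [not_or] at h6
          exact he4 (T.chain_of_not_mem h6.1 h6.2)
        rcases h5 with h5 | h5
        · obtain ⟨j, hj, hj'⟩ := mem_st.1 h5
          rw [zero_add] at hj'
          obtain ⟨h6, h7⟩ := hU p h2 h3 e he1 he2 he3 j hj (Or.inl hj'.symm)
          rw [h7, h6]
        · obtain ⟨j, hj, hj'⟩ := mem_st.1 h5
          rw [zero_add] at hj'
          obtain ⟨h6, h7⟩ := hU p h2 h3 e he1 he2 he3 j hj (Or.inr hj'.symm)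
          rw [h7, h6])
    rw [hB p (by omega) (by omega)] at h4
    exact h4
  -- sum over the levels
  set Z : Set D := {d | Dle T q (T.tl (w (2 * m))) (T.tl d) ∧ k d ≠ 0} with hZ
  have hZf : Z.Finite := Set.toFinite _
  rw [Set.ncard_eq_toFinset_card Z hZf]
  have h5 : ∀ p ∈ Finset.Ioo (2 * m - q) (2 * m + q), q - ab p (2 * m) ≤
      (hZf.toFinset.filter fun d => dst T (T.tl (w (2 * m + q))) (T.tl d) = 2 * m + q - p).card := by
    intro p hp
    rw [Finset.mem_Ioo] at hp
    refine (hL p hp.1 hp.2).trans ?_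
    rw [← Set.ncard_coe_finset]
    refine Set.ncard_le_ncard ?_ (Set.toFinite _)
    rintro d ⟨h6, h7⟩
    rw [Finset.mem_coe, Finset.mem_filter, Set.Finite.mem_toFinset]
    exact ⟨h7, h6⟩
  calc q ^ 2 = ∑ p ∈ Finset.Ioo (2 * m - q) (2 * m + q), (q - ab p (2 * m)) := (sum_tent m q (by omega)).symm
    _ ≤ ∑ p ∈ Finset.Ioo (2 * m - q) (2 * m + q),
        (hZf.toFinset.filter fun d => dst T (T.tl (w (2 * m + q))) (T.tl d) = 2 * m + q - p).card := Finset.sum_le_sum h5
    _ = ((Finset.Ioo (2 * m - q) (2 * m + q)).biUnion fun p =>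
        hZf.toFinset.filter fun d => dst T (T.tl (w (2 * m + q))) (T.tl d) = 2 * m + q - p).card := by
      rw [Finset.card_biUnion]
      intro p hp p' hp' hne
      rw [Finset.mem_coe, Finset.mem_Ioo] at hp hp'
      refine Finset.disjoint_left.2 ?_
      intro d hd hd'
      rw [Finset.mem_filter] at hd hd'
      omega
    _ ≤ hZf.toFinset.card := by
      refine Finset.card_le_card fun d hd => ?_
      rw [Finset.mem_biUnion] at hd
      obtain ⟨p, -, hp⟩ := hd
      exact (Finset.mem_filter.1 hp).1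

end SYS
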