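import Pool.Agent.SYS.Defs
import Pool.Agent.SYS.Lib.Flat
import Pool.Agent.SYS.UT.AbF

/-!
# SYS-LP-Defs: periodic walks, strands, distance (block LP: packing of centres along a shortest walk)
DO NOT CHANGE.
-/

namespace SYS

open Classical SST GNH

variable {D : Type}

/-- `w` is a walk, periodic with period `l`: a closed walk of length `l` with a cyclic index. -/
structure PW (T : Tri D) (w : ℕ → D) (l : ℕ) : Prop where
  pos : 0 < l
  per : ∀ i, w (i + l) = w i
  walk : ∀ i, T.hd (w i) = T.tl (w (i + 1))

/-- The part of length `k` from the time `i`. -/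
def st (w : ℕ → D) (i k : ℕ) : List D := (List.range k).map fun j => w (i + j)

/-- A shortest closed walk among the null-homologous, not null-homotopic ones. -/
structure Shw (T : Tri D) (w : ℕ → D) (l : ℕ) : Prop extends PW T w l where
  hom : T.NullHom (st w 0 l)
  htp : ¬ T.NullHtp (st w 0 l)
  mn : ∀ c : List D, T.Closed c → T.NullHom c → ¬ T.NullHtp c → l ≤ c.length

/-- Distance. -/
noncomputable def dst (T : Tri D) (u v : T.V) : ℕ := sInf {k | Dle T k u v}

/-- `|i - j|`. -/
def ab (i j : ℕ) : ℕ := (i - j) + (j - i)

end SYS
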