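import Pool.Agent.SYS.LP.Defs

/-!
# SYS-LP-Sct: shortcuts
* `nullHom_of_htp`: `exists_flat_ab` and `Flat.nullHtp`.
* `htp_hol`: `exists_flat T hT` (needs `Nonempty D`: if `D` is empty every list is `[]`; `NullHtp []` is reflexivity): if every
  flat labelling has trivial holonomy along the closed walk `c` then `c` is null-homotopic.
* `sct`: `p ++ s ++ r` and `p ++ c ++ r` have the same holonomy for every flat labelling; `exists_flat` for `NullHtp` and
  `exists_flat_ab` for `NullHom`; closed: `Tri.walk_append`, `Tri.walk_split`, `Tri.closed_iff` / the base point.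
-/

namespace SYS

open Classical SST GNH

variable {D : Type} {T : Tri D}

theorem nullHom_of_htp {c : List D} (h : T.NullHtp c) : T.NullHom c := by
  obtain ⟨G, _, l, hl, hc⟩ := exists_flat_ab T
  exact (hc c).1 (hl.nullHtp h)

theorem htp_hol (hT : T.Conn) {c : List D} (hc : T.Closed c)
    (h : ∀ (G : Type) (_ : Group G) (lab : D → G), Flat T lab → hol lab c = 1) : T.NullHtp c := by
  cases c with
  | nil => exact Relation.EqvGen.refl _
  | cons d c =>
    haveI : Nonempty D := ⟨d⟩
    obtain ⟨G, hG, l, hl, hc'⟩ := exists_flat T hT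
    exact (hc' _ hc).1 (h G hG l hl)

/-- Replace the part `s` of a closed walk by `c`, with the same end points and the same holonomies. -/
theorem sct (hT : T.Conn) {u v z : T.V} {p s r c : List D} (hp : T.IsWalk z p u) (hs : T.IsWalk u s v)
    (hr : T.IsWalk v r z) (hc : T.IsWalk u c v)
    (h : ∀ (G : Type) (_ : Group G) (lab : D → G), Flat T lab → hol lab s = hol lab c)
    (h0 : T.NullHom (p ++ s ++ r)) (h1 : ¬ T.NullHtp (p ++ s ++ r)) :
    T.Closed (p ++ c ++ r) ∧ T.NullHom (p ++ c ++ r) ∧ ¬ T.NullHtp (p ++ c ++ r) := by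
  have hcl : T.Closed (p ++ c ++ r) := ⟨z, T.walk_append (T.walk_append hp hc) hr⟩
  have hcl' : T.Closed (p ++ s ++ r) := ⟨z, T.walk_append (T.walk_append hp hs) hr⟩
  have key : ∀ (G : Type) (_ : Group G) (lab : D → G), Flat T lab →
      hol lab (p ++ s ++ r) = hol lab (p ++ c ++ r) := by
    intro G hG lab hl
    rw [hol_append, hol_append, hol_append, hol_append, h G hG lab hl]
  refine ⟨hcl, ?_, fun hn => h1 (htp_hol hT hcl' fun G hG lab hl => ?_)⟩
  · obtain ⟨G, _, l, hl, hh⟩ := exists_flat_ab T
    refine (hh _).1 ?_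
    rw [← key G _ l hl]
    exact (hh _).2 h0
  · rw [key G hG lab hl]
    exact hl.nullHtp hn

end SYS
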