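import Pool.Agent.SYS.LP.Wk
import Pool.Agent.SYS.LP.Sct
import Pool.Agent.SYS.LP.Dst

/-!
# SYS-LP-Gdl: the walk is geodesic near a point without short essential loops
`x = tl (w (2 m))`, all closed walks at `x` of length `≤ 4 m` are null-homotopic.
* `Shw.shift`: `PW.shift`, `st_shift`, `PW.chain_shift` (`NullHom` depends on the chain only: `Tri.nullHom_congr`), `PW.hol_shift` with
  `htp_hol` (if `st w a l` is null-homotopic then all holonomies of `st w a l` are `1` (`Flat.nullHtp`), so those of `st w 0 l` too).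
* `long`: otherwise `st w (2 m) l` is a closed walk at `x` of length `≤ 4 m`, so it is null-homotopic, contradiction with `(h.shift _).htp`.
* `geod`: suppose `c.length < i' - i`.  `PW.lnk` gives `α` from `2 m` to `i`, `β` from `i'` to `2 m`; the closed walk `α ++ c ++ β` at `x` has
  length `ab (2 m) i + c.length + ab i' (2 m) < 2 * (max i' (2 m) - min i (2 m)) ≤ 4 m`, so it is null-homotopic and all holonomies are `1`
  (`Flat.nullHtp`): with `P j = hol (st w 0 j)`: `P (2m)⁻¹ P i (hol c) P i'⁻¹ P (2m) = 1`, so `hol c = P i⁻¹ P i' = hol (st w i (i' - i))`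
  (`hol_st`).  `sct` with `p = st w 0 i`, `s = st w i (i' - i)`, `r = st w i' (l - i')` (`i' ≤ 4 m < l` by `long`): a shorter walk than `l`,
  contradiction with `h.mn`.
* `geod_dst`: from `geod` and `dst_walk`, `PW.dle_ab`.
-/

namespace SYS

open Classical SST GNH

variable {D : Type} {T : Tri D} {w : ℕ → D} {l m : ℕ}

theorem Shw.shift (hT : T.Conn) (h : Shw T w l) (a : ℕ) : Shw T (fun i => w (i + a)) l := by
  have e : st (fun i => w (i + a)) 0 l = st w a l := by
    rw [st_shift, Nat.zero_add]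
  refine ⟨h.toPW.shift a, ?_, ?_, h.mn⟩
  · rw [e]
    exact T.nullHom_congr (h.toPW.chain_shift a) h.hom
  · rw [e]
    intro hn
    apply h.htp
    refine htp_hol hT ⟨_, h.toPW.st_closed 0⟩ fun G hG lab hl => ?_
    have h1 := hl.nullHtp hn
    rw [h.toPW.hol_shift lab a] at h1
    have h2 : hol lab (st w 0 l) * hol lab (st w 0 a) = hol lab (st w 0 a) := by
      rw [mul_assoc, inv_mul_eq_one] at h1
      exact h1.symm
    exact mul_eq_right.mp h2

theorem Shw.long (hT : T.Conn) (h : Shw T w l)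
    (hx : ∀ c, T.IsWalk (T.tl (w (2 * m))) c (T.tl (w (2 * m))) → c.length ≤ 4 * m → T.NullHtp c) : 4 * m < l := by
  by_contra hc
  have h1 := (h.shift hT (2 * m)).htp
  rw [st_shift, Nat.zero_add] at h1
  apply h1
  apply hx _ (h.toPW.st_closed (2 * m))
  rw [st_length]
  omega

theorem Shw.geod (hT : T.Conn) (h : Shw T w l)
    (hx : ∀ c, T.IsWalk (T.tl (w (2 * m))) c (T.tl (w (2 * m))) → c.length ≤ 4 * m → T.NullHtp c) {i i' : ℕ} (hi : i ≤ i')
    (hw : max i' (2 * m) ≤ min i (2 * m) + 2 * m) {c : List D} (hc : T.IsWalk (T.tl (w i)) c (T.tl (w i'))) :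
    i' - i ≤ c.length := by
  by_contra hlt
  have hlong := h.long hT hx
  obtain ⟨α, hα, hαl, hαh⟩ := h.toPW.lnk (2 * m) i
  obtain ⟨β, hβ, hβl, hβh⟩ := h.toPW.lnk i' (2 * m)
  have hcl : T.IsWalk (T.tl (w (2 * m))) (α ++ c ++ β) (T.tl (w (2 * m))) :=
    T.walk_append (T.walk_append hα hc) hβ
  have hlen : (α ++ c ++ β).length ≤ 4 * m := by
    rw [List.length_append, List.length_append, hαl, hβl]
    unfold ab
    omega
  have hn := hx _ hcl hlen
  have hi' : i' ≤ 4 * m := by omega
  have e1 : i + (i' - i) = i' := by omega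
  have e2 : i' + (l - i') = l := by omega
  have hp : T.IsWalk (T.tl (w 0)) (st w 0 i) (T.tl (w i)) := by
    have h1 := h.toPW.st_walk 0 i
    rwa [Nat.zero_add] at h1
  have hs : T.IsWalk (T.tl (w i)) (st w i (i' - i)) (T.tl (w i')) := by
    have h1 := h.toPW.st_walk i (i' - i)
    rwa [e1] at h1
  have hr : T.IsWalk (T.tl (w i')) (st w i' (l - i')) (T.tl (w 0)) := by
    have h1 := h.toPW.st_walk i' (l - i')
    have h2 := h.per 0
    rw [Nat.zero_add] at h2
    rwa [e2, h2] at h1
  have hsum : st w 0 i ++ st w i (i' - i) ++ st w i' (l - i') = st w 0 l := by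
    have h1 := st_add w 0 i (i' - i)
    rw [Nat.zero_add, e1] at h1
    have h2 := st_add w 0 i' (l - i')
    rw [Nat.zero_add, e2] at h2
    rw [h2, h1]
  have hhol : ∀ (G : Type) (_ : Group G) (lab : D → G), Flat T lab →
      hol lab (st w i (i' - i)) = hol lab c := by
    intro G hG lab hl
    have h1 := hl.nullHtp hn
    rw [hol_append, hol_append, hαh G hG lab hl, hβh G hG lab hl] at h1
    rw [hol_st, e1]
    have h2 : hol lab c = (hol lab (st w 0 i))⁻¹ * hol lab (st w 0 (2 * m)) *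
        ((hol lab (st w 0 (2 * m)))⁻¹ * hol lab (st w 0 i) * hol lab c *
          ((hol lab (st w 0 i'))⁻¹ * hol lab (st w 0 (2 * m)))) *
        ((hol lab (st w 0 (2 * m)))⁻¹ * hol lab (st w 0 i')) := by
      group
    rw [h1] at h2
    rw [h2]
    group
  have h0 : T.NullHom (st w 0 i ++ st w i (i' - i) ++ st w i' (l - i')) := by
    rw [hsum]
    exact h.hom
  have h1 : ¬ T.NullHtp (st w 0 i ++ st w i (i' - i) ++ st w i' (l - i')) := by
    rw [hsum]
    exact h.htp
  obtain ⟨c1, c2, c3⟩ := sct hT hp hs hr hc hhol h0 h1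
  have h3 := h.mn _ c1 c2 c3
  rw [List.length_append, List.length_append, st_length, st_length] at h3
  omega

theorem Shw.geod_dst (hT : T.Conn) (h : Shw T w l)
    (hx : ∀ c, T.IsWalk (T.tl (w (2 * m))) c (T.tl (w (2 * m))) → c.length ≤ 4 * m → T.NullHtp c) {i i' : ℕ} (hi : i ≤ i')
    (hw : max i' (2 * m) ≤ min i (2 * m) + 2 * m) : dst T (T.tl (w i)) (T.tl (w i')) = i' - i := by
  apply le_antisymm
  · have h1 := (dle_iff hT _ _ _).mp (h.toPW.dle_ab i i')
    unfold ab at h1
    omega
  · obtain ⟨c, hc, hcl⟩ := dst_walk hT (T.tl (w i)) (T.tl (w i'))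
    rw [← hcl]
    exact h.geod hT hx hi hw hc

end SYS
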