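import Pool.Agent.SYS.LP.Loc
import Pool.Agent.SYS.LP.Ctr

/-!
# SYS-LP-Glb: the number of centres
`C` of `exists_centres` with `R = 2 m`.  `C = G ∪ B1 ∪ B2`: `B1` = the elements with an essential closed walk of length `≤ 4 m` (subset of the set of
`hM`, so `#B1 ≤ M1`); for the others `Shw.vertex_alt` (with `x = tl (w i)`): `G` = first alternative, `B2` = second alternative.
* `(4 m - 2 q) #G ≤ l`: the sets `{j | j < l ∧ Dle T m x (tl (w j))}`, `x ∈ G`, are disjoint (`Dle T (2 m) x y` otherwise) subsets of `[0, l)`.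
* `q ^ 2 #B2 ≤ A`: the sets `{d | Dle T q x (tl d) ∧ k d ≠ 0}`, `x ∈ B2`, are disjoint (`2 q ≤ 2 m`) subsets of `{d | k d ≠ 0}`.
* `(4 m - 2 q) q² #C ≤ (4 m - 2 q) q² (#G + #B1 + #B2) ≤ q² l + 4 m (q² M1 + A)`.
`disj_card`: the general counting lemma (`Finset.card_biUnion` or induction on `G`).
-/

namespace SYS

open Classical SST GNH

variable {D : Type} {T : Tri D} {w : ℕ → D} {l m : ℕ}

theorem disj_card {A B : Type} (G : Finset A) (S : A → Set B) (U : Set B) (hU : U.Finite) {n : ℕ}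
    (h1 : ∀ x ∈ G, S x ⊆ U) (h2 : ∀ x ∈ G, ∀ y ∈ G, x ≠ y → Disjoint (S x) (S y)) (h3 : ∀ x ∈ G, n ≤ (S x).ncard) :
    n * G.card ≤ U.ncard := by
  have e1 : ∀ x ∈ G, (hU.toFinset.filter fun y => y ∈ S x).card = (S x).ncard := by
    intro x hx
    rw [← Set.ncard_coe_finset]
    congr 1
    ext y
    rw [Finset.mem_coe, Finset.mem_filter, Set.Finite.mem_toFinset]
    exact ⟨fun h => h.2, fun h => ⟨h1 x hx h, h⟩⟩
  have e2 : (G.biUnion fun x => hU.toFinset.filter fun y => y ∈ S x).card =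
      ∑ x ∈ G, (hU.toFinset.filter fun y => y ∈ S x).card := by
    apply Finset.card_biUnion
    intro x hx y hy hxy
    refine Finset.disjoint_left.mpr ?_
    intro z hz hz'
    exact Set.disjoint_left.mp (h2 x hx y hy hxy) (Finset.mem_filter.mp hz).2 (Finset.mem_filter.mp hz').2
  have e3 : (G.biUnion fun x => hU.toFinset.filter fun y => y ∈ S x).card ≤ hU.toFinset.card := by
    apply Finset.card_le_card
    intro z hz
    rw [Finset.mem_biUnion] at hz
    obtain ⟨x, -, hz⟩ := hz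
    exact (Finset.mem_filter.mp hz).1
  rw [Set.ncard_eq_toFinset_card U hU]
  refine le_trans ?_ e3
  rw [e2, mul_comm, ← smul_eq_mul]
  refine Finset.card_nsmul_le_sum G _ n fun x hx => ?_
  rw [e1 x hx]
  exact h3 x hx

theorem Shw.centres [Finite D] (hT : T.Conn) (h : Shw T w l) {k : D → ℤ} (hk : ∀ d, k (T.f d) = k d)
    (hc : ∀ d, T.chain (st w 0 l) d = k d - k (T.a d)) {q : ℕ} (hq : 1 ≤ q) (hqm : q ≤ m) {M1 A : ℕ}
    (hM : {v : T.V | ∃ c, T.IsWalk v c v ∧ c.length ≤ 4 * m ∧ ¬ T.NullHtp c}.ncard ≤ M1) (hA : {d | k d ≠ 0}.ncard ≤ A) :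
    ∃ C : Finset T.V, C.Nonempty ∧ (∀ x ∈ C, ∃ i, x = T.tl (w i)) ∧
      (∀ x ∈ C, ∀ y ∈ C, x ≠ y → ¬ Dle T (2 * m) x y) ∧
      (∀ Z ⊆ C, Z.Nonempty → Z ≠ C → ∃ x ∈ Z, ∃ y ∈ C \ Z, Dle T (2 * m + 1) x y) ∧
      (∀ i, ∃ x ∈ C, Dle T (2 * m) x (T.tl (w i))) ∧
      (4 * m - 2 * q) * q ^ 2 * C.card ≤ q ^ 2 * l + 4 * m * (q ^ 2 * M1 + A) := by
  haveI : Finite T.V := by
    unfold Tri.V
    infer_instance
  obtain ⟨C, hne, hon, hsep, hcon, hcov⟩ := exists_centres h.toPW (2 * m)
  refine ⟨C, hne, hon, hsep, hcon, hcov, ?_⟩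
  set ess : T.V → Prop := fun v => ∃ c, T.IsWalk v c v ∧ c.length ≤ 4 * m ∧ ¬ T.NullHtp c with hess
  set gd : T.V → Prop := fun x => 4 * m - 2 * q ≤ {j | j < l ∧ Dle T m x (T.tl (w j))}.ncard with hgd
  -- the essential ones
  have hB1 : (C.filter ess).card ≤ M1 := by
    refine le_trans ?_ hM
    rw [← Set.ncard_coe_finset]
    apply Set.ncard_le_ncard _ (Set.toFinite _)
    intro x hx
    exact (Finset.mem_filter.mp hx).2
  -- first alternative
  have hG : (4 * m - 2 * q) * ((C.filter fun x => ¬ ess x).filter gd).card ≤ l := by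
    have h1 := disj_card ((C.filter fun x => ¬ ess x).filter gd)
      (fun x => {j | j < l ∧ Dle T m x (T.tl (w j))}) (↑(Finset.range l) : Set ℕ) (Finset.finite_toSet _)
      (n := 4 * m - 2 * q) ?_ ?_ ?_
    · rwa [Set.ncard_coe_finset, Finset.card_range] at h1
    · intro x _ j hj
      rw [Finset.mem_coe, Finset.mem_range]
      exact hj.1
    · intro x hx y hy hxy
      rw [Set.disjoint_left]
      intro j hj hj'
      have hx' := (Finset.mem_filter.mp (Finset.mem_filter.mp hx).1).1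
      have hy' := (Finset.mem_filter.mp (Finset.mem_filter.mp hy).1).1
      apply hsep x hx' y hy' hxy
      exact (hj.2.trans hj'.2.symm).mono (by omega)
    · intro x hx
      exact (Finset.mem_filter.mp hx).2
  -- second alternative
  have hB2 : q ^ 2 * ((C.filter fun x => ¬ ess x).filter fun x => ¬ gd x).card ≤ A := by
    refine le_trans ?_ hA
    apply disj_card ((C.filter fun x => ¬ ess x).filter fun x => ¬ gd x)
      (fun x => {d | Dle T q x (T.tl d) ∧ k d ≠ 0}) {d | k d ≠ 0} (Set.toFinite _)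
    · intro x _ d hd
      exact hd.2
    · intro x hx y hy hxy
      rw [Set.disjoint_left]
      intro j hj hj'
      have hx' := (Finset.mem_filter.mp (Finset.mem_filter.mp hx).1).1
      have hy' := (Finset.mem_filter.mp (Finset.mem_filter.mp hy).1).1
      apply hsep x hx' y hy' hxy
      exact (hj.1.trans hj'.1.symm).mono (by omega)
    · intro x hx
      rw [Finset.mem_filter, Finset.mem_filter] at hx
      obtain ⟨⟨hxC, hxe⟩, hxg⟩ := hx
      obtain ⟨i, rfl⟩ := hon x hxC
      have h0 : ∀ c, T.IsWalk (T.tl (w i)) c (T.tl (w i)) → c.length ≤ 4 * m → T.NullHtp c := by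
        intro c hw hl
        by_contra hn
        exact hxe ⟨c, hw, hl, hn⟩
      rcases h.vertex_alt hT hk hc hq hqm i h0 with h1 | h1
      · exact (hxg h1).elim
      · exact h1
  have hcard : C.card = (C.filter ess).card + (((C.filter fun x => ¬ ess x).filter gd).card +
      ((C.filter fun x => ¬ ess x).filter fun x => ¬ gd x).card) := by
    rw [Finset.card_filter_add_card_filter_not, Finset.card_filter_add_card_filter_not]
  rw [hcard]
  generalize (C.filter ess).card = b1 at *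
  generalize ((C.filter fun x => ¬ ess x).filter gd).card = g at *
  generalize ((C.filter fun x => ¬ ess x).filter fun x => ¬ gd x).card = b2 at *
  have ha : 4 * m - 2 * q ≤ 4 * m := Nat.sub_le _ _
  generalize 4 * m - 2 * q = a at *
  calc a * q ^ 2 * (b1 + (g + b2)) = q ^ 2 * (a * g) + a * (q ^ 2 * b1 + q ^ 2 * b2) := by ring
    _ ≤ q ^ 2 * l + 4 * m * (q ^ 2 * M1 + A) := by
      refine Nat.add_le_add (Nat.mul_le_mul_left _ hG) (Nat.mul_le_mul ha ?_)
      exact Nat.add_le_add (Nat.mul_le_mul_left _ hB1) hB2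

end SYS
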