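import Pool.Agent.SYS.LP.Cnt

/-!
# SYS-LP-Loc: what a centre sees
* `win_count`: `p` is periodic with period `l`: the number of `i ∈ [0, l)` with `p i` is the number of `t ∈ [m, m + l)` with `p t`
  (`Nat.filter_Ico_card_eq_of_periodic` with `n = 0` and `n = m`), and this set contains `[m, 3 m]` and `[i - (m - q), i + (m - q)]`, disjoint
  as `4 m < i`, contained in `[m, m + l)` as `i < l`: `2 m + 1 + 2 (m - q) + 1` elements.
* `local_alt`: `4 m < l` (`long`).  If some `i < l` with `Dle T q x (tl (w i))` is not in `[2 m - q, 2 m + q]`: it is not in `[0, 4 m]` (`geod_dst`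
  between `i` and `2 m`, `dle_iff`), so `4 m < i < l`: for `t ∈ [m, 3 m]`: `Dle T m x (tl (w t))` by `PW.dle_ab`; for
  `t ∈ [i - (m - q), i + (m - q)]`: `Dle T q x (tl (w i))` and `PW.dle_ab i t` (`≤ m - q`).  `win_count`.  Otherwise `Shw.faces`.
* `vertex_alt`: `a = i + 2 m * l - 2 m`, `a + 2 m = i + (2 m) * l`, `w (a + 2 m) = w i` (`PW.add_mul`, `PW.pos`).  `local_alt` for `fun j => w (j + a)`
  (`Shw.shift`, `st_shift`, `PW.chain_shift`); the number of `j < l` with a periodic property does not change under the shift by `a`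
  (`Nat.filter_Ico_card_eq_of_periodic` with `n = 0` and `n = a`).
-/

namespace SYS

open Classical SST GNH

variable {D : Type} {T : Tri D} {w : ℕ → D} {l m : ℕ}

private theorem loc_cnt {p : ℕ → Prop} {l : ℕ} (hp : ∀ t, p (t + l) ↔ p t) (n : ℕ) :
    ((Finset.Ico n (n + l)).filter p).card = {t | t < l ∧ p t}.ncard := by
  have h1 : Function.Periodic p l := fun t => propext (hp t)
  rw [Nat.filter_Ico_card_eq_of_periodic n l p h1, Nat.count_eq_card_filter_range,
    ← Set.ncard_coe_finset]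
  congr 1
  ext t
  simp

private theorem loc_shift {p : ℕ → Prop} {l : ℕ} (hp : ∀ t, p (t + l) ↔ p t) (a : ℕ) :
    {t | t < l ∧ p (t + a)}.ncard = {t | t < l ∧ p t}.ncard := by
  rw [← loc_cnt hp a]
  have h1 : ((Finset.Ico a (a + l)).filter p : Finset ℕ) =
      ((Finset.range l).filter fun t => p (t + a)).image fun t => t + a := by
    ext t
    simp only [Finset.mem_filter, Finset.mem_Ico, Finset.mem_image, Finset.mem_range]
    constructor
    · rintro ⟨⟨h2, h3⟩, h4⟩
      refine ⟨t - a, ⟨by omega, ?_⟩, by omega⟩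
      rw [Nat.sub_add_cancel h2]
      exact h4
    · rintro ⟨s, ⟨h2, h3⟩, rfl⟩
      exact ⟨⟨by omega, by omega⟩, h3⟩
  rw [h1, Finset.card_image_of_injective _ (fun x y h => by
    have h2 : x + a = y + a := h
    omega), ← Set.ncard_coe_finset]
  congr 1
  ext t
  simp

theorem win_count {p : ℕ → Prop} {l m q i : ℕ} (hp : ∀ t, p (t + l) ↔ p t) (hq : q ≤ m) (h1 : 4 * m < i) (h2 : i < l)
    (h3 : ∀ t, m ≤ t → t ≤ 3 * m → p t) (h4 : ∀ t, i ≤ t + (m - q) → t ≤ i + (m - q) → p t) :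
    4 * m - 2 * q ≤ {t | t < l ∧ p t}.ncard := by
  rw [← loc_cnt hp m]
  have hd : Disjoint (Finset.Icc m (3 * m)) (Finset.Icc (i - (m - q)) (i + (m - q))) := by
    rw [Finset.disjoint_left]
    intro t ht ht'
    rw [Finset.mem_Icc] at ht ht'
    omega
  have hs : Finset.Icc m (3 * m) ∪ Finset.Icc (i - (m - q)) (i + (m - q)) ⊆
      (Finset.Ico m (m + l)).filter p := by
    intro t ht
    rw [Finset.mem_union, Finset.mem_Icc, Finset.mem_Icc] at ht
    rw [Finset.mem_filter, Finset.mem_Ico]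
    rcases ht with ht | ht
    · exact ⟨⟨by omega, by omega⟩, h3 t ht.1 ht.2⟩
    · exact ⟨⟨by omega, by omega⟩, h4 t (by omega) ht.2⟩
  have hc := Finset.card_le_card hs
  rw [Finset.card_union_of_disjoint hd, Nat.card_Icc, Nat.card_Icc] at hc
  omega

theorem Shw.local_alt [Finite D] (hT : T.Conn) (h : Shw T w l) {k : D → ℤ} (hk : ∀ d, k (T.f d) = k d)
    (hc : ∀ d, T.chain (st w 0 l) d = k d - k (T.a d))
    (hx : ∀ c, T.IsWalk (T.tl (w (2 * m))) c (T.tl (w (2 * m))) → c.length ≤ 4 * m → T.NullHtp c) {q : ℕ} (hq : 1 ≤ q) (hqm : q ≤ m) :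
    4 * m - 2 * q ≤ {i | i < l ∧ Dle T m (T.tl (w (2 * m))) (T.tl (w i))}.ncard ∨
      q ^ 2 ≤ {d | Dle T q (T.tl (w (2 * m))) (T.tl d) ∧ k d ≠ 0}.ncard := by
  by_cases hall : ∀ i < l, Dle T q (T.tl (w (2 * m))) (T.tl (w i)) → 2 * m - q ≤ i ∧ i ≤ 2 * m + q
  · exact Or.inr (Shw.faces hT h hk hc hx hq hqm hall)
  · left
    obtain ⟨i, hi⟩ := not_forall.1 hall
    obtain ⟨hil, hi⟩ := Classical.not_imp.1 hi
    obtain ⟨hid, hi⟩ := Classical.not_imp.1 hi
    have hgt : 4 * m < i := by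
      by_contra hle
      have hle' : i ≤ 4 * m := not_lt.1 hle
      rw [dle_iff hT] at hid
      rcases le_total i (2 * m) with h1 | h1
      · have h2 := h.geod_dst hT hx (i := i) (i' := 2 * m) h1 (by rw [min_eq_left h1]; simp)
        rw [dst_comm] at h2
        rw [h2] at hid
        exact hi ⟨by omega, by omega⟩
      · have h2 := h.geod_dst hT hx (i := 2 * m) (i' := i) h1 (by
          rw [max_eq_left h1, min_self]
          omega)
        rw [h2] at hid
        exact hi ⟨by omega, by omega⟩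
    refine win_count (i := i) (q := q) (p := fun t => Dle T m (T.tl (w (2 * m))) (T.tl (w t))) ?_ hqm hgt hil ?_ ?_
    · intro t
      show Dle T m (T.tl (w (2 * m))) (T.tl (w (t + l))) ↔ _
      rw [h.per]
    · intro t h1 h2
      refine (h.dle_ab (2 * m) t).mono ?_
      unfold ab
      omega
    · intro t h1 h2
      have h3 := hid.trans (h.dle_ab i t)
      refine h3.mono ?_
      unfold ab
      omega

/-- The same for an arbitrary vertex of the walk. -/
theorem Shw.vertex_alt [Finite D] (hT : T.Conn) (h : Shw T w l) {k : D → ℤ} (hk : ∀ d, k (T.f d) = k d)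
    (hc : ∀ d, T.chain (st w 0 l) d = k d - k (T.a d)) {q : ℕ} (hq : 1 ≤ q) (hqm : q ≤ m) (i : ℕ)
    (hx : ∀ c, T.IsWalk (T.tl (w i)) c (T.tl (w i)) → c.length ≤ 4 * m → T.NullHtp c) :
    4 * m - 2 * q ≤ {j | j < l ∧ Dle T m (T.tl (w i)) (T.tl (w j))}.ncard ∨
      q ^ 2 ≤ {d | Dle T q (T.tl (w i)) (T.tl d) ∧ k d ≠ 0}.ncard := by
  obtain ⟨a, ha⟩ : ∃ a, a = i + 2 * m * l - 2 * m := ⟨_, rfl⟩
  have hl : 2 * m ≤ 2 * m * l := Nat.le_mul_of_pos_right _ h.pos
  have ha2 : 2 * m + a = i + 2 * m * l := by omega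
  have hw : w (2 * m + a) = w i := by
    rw [ha2]
    exact h.toPW.add_mul i (2 * m)
  have h' := h.shift hT a
  have hc' : ∀ d, T.chain (st (fun j => w (j + a)) 0 l) d = k d - k (T.a d) := by
    intro d
    rw [st_shift, Nat.zero_add, h.toPW.chain_shift]
    exact hc d
  have hx' : ∀ c, T.IsWalk (T.tl ((fun j => w (j + a)) (2 * m))) c (T.tl ((fun j => w (j + a)) (2 * m))) →
      c.length ≤ 4 * m → T.NullHtp c := by
    intro c h1 h2
    have h3 : (fun j => w (j + a)) (2 * m) = w i := hw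
    rw [h3] at h1
    exact hx c h1 h2
  have key := Shw.local_alt hT h' hk hc' hx' hq hqm
  rw [hw] at key
  rcases key with h4 | h4
  · left
    have h5 := loc_shift (p := fun j => Dle T m (T.tl (w i)) (T.tl (w j))) (l := l) (fun t => by
      show Dle T m (T.tl (w i)) (T.tl (w (t + l))) ↔ _
      rw [h.per]) a
    rw [← h5]
    exact h4
  · exact Or.inr h4

end SYS
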