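import Pool.Agent.SYS.LP.Defs

/-!
# SYS-LP-Nxd: level curves
`b` is a function on the vertices that changes by at most `1` along a dart.  A dart `d` is DESCENDING if `b (tl d) = b (hd d) + 1`.
The third vertex of its face is `v = hd (f d) = tl (f (f d))`; `b v` is `b (tl d)` or `b (hd d)` (it is within `1` of both, by `hb`
for `f d` and `f (f d)`; `Tri.tl_f`, `Tri.hd_ff`, `Tri.hd_a`).
`N d := if b v = b (tl d) then a (f d) else a (f (f d))` for descending `d`, `N d := d` for the others.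
-/

namespace SYS

open Classical SST GNH

variable {D : Type}

private noncomputable def nx (T : Tri D) (b : T.V → ℕ) (d : D) : D :=
  if b (T.tl d) = b (T.hd d) + 1 then
    if b (T.hd (T.f d)) = b (T.tl d) then T.a (T.f d) else T.a (T.f (T.f d))
  else d

private theorem third (T : Tri D) (b : T.V → ℕ)
    (hb : ∀ d, b (T.tl d) ≤ b (T.hd d) + 1 ∧ b (T.hd d) ≤ b (T.tl d) + 1) {d : D}
    (hd : b (T.tl d) = b (T.hd d) + 1) (h : b (T.hd (T.f d)) ≠ b (T.tl d)) :
    b (T.hd (T.f d)) = b (T.hd d) := by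
  have h1 := hb (T.f d)
  have h2 := hb (T.f (T.f d))
  rw [T.tl_f] at h1
  rw [T.tl_f, T.hd_ff] at h2
  omega

private theorem nx_spec (T : Tri D) (b : T.V → ℕ)
    (hb : ∀ d, b (T.tl d) ≤ b (T.hd d) + 1 ∧ b (T.hd d) ≤ b (T.tl d) + 1) {d : D}
    (hd : b (T.tl d) = b (T.hd d) + 1) :
    b (T.tl (nx T b d)) = b (T.tl d) ∧ b (T.hd (nx T b d)) = b (T.hd d) ∧
        Dle T 1 (T.tl d) (T.tl (nx T b d)) ∧ (T.a (nx T b d) = T.f d ∨ T.a (nx T b d) = T.f (T.f d)) := by
  unfold nx
  rw [if_pos hd]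
  by_cases h : b (T.hd (T.f d)) = b (T.tl d)
  · rw [if_pos h]
    refine ⟨h, ?_, ⟨[T.a (T.f (T.f d))], ⟨?_, ?_⟩, le_rfl⟩, Or.inl (T.aa _)⟩
    · rw [T.hd_a, T.tl_f]
    · show T.hd (T.f (T.f d)) = T.tl d
      exact T.hd_ff d
    · show T.hd (T.a (T.f (T.f d))) = T.tl (T.a (T.f d))
      rw [T.hd_a, T.tl_f]
      rfl
  · rw [if_neg h]
    have h3 := third T b hb hd h
    have h4 : T.tl (T.a (T.f (T.f d))) = T.tl d := T.hd_ff d
    refine ⟨by rw [h4], ?_, ⟨[], ?_, by simp⟩, Or.inr (T.aa _)⟩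
    · rw [T.hd_a, T.tl_f, h3]
    · rw [h4]
      rfl

private theorem nx_inj_aux (T : Tri D) (b : T.V → ℕ)
    (hb : ∀ d, b (T.tl d) ≤ b (T.hd d) + 1 ∧ b (T.hd d) ≤ b (T.tl d) + 1) {d d' : D}
    (hd : b (T.tl d) = b (T.hd d) + 1) (hd' : b (T.tl d') = b (T.hd d') + 1)
    (h : T.f d = T.f (T.f d')) (h1 : b (T.hd (T.f d)) = b (T.tl d)) : False := by
  have h2 : d = T.f d' := T.f.injective h
  subst h2
  rw [T.hd_ff, T.tl_f] at h1
  omega

private theorem nx_inj (T : Tri D) (b : T.V → ℕ)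
    (hb : ∀ d, b (T.tl d) ≤ b (T.hd d) + 1 ∧ b (T.hd d) ≤ b (T.tl d) + 1) :
    Function.Injective (nx T b) := by
  intro d d' h
  by_cases hd : b (T.tl d) = b (T.hd d) + 1
  · by_cases hd' : b (T.tl d') = b (T.hd d') + 1
    · unfold nx at h
      rw [if_pos hd, if_pos hd'] at h
      by_cases h1 : b (T.hd (T.f d)) = b (T.tl d)
      · rw [if_pos h1] at h
        by_cases h2 : b (T.hd (T.f d')) = b (T.tl d')
        · rw [if_pos h2] at h
          exact T.f.injective (T.a.injective h)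
        · rw [if_neg h2] at h
          exact (nx_inj_aux T b hb hd hd' (T.a.injective h) h1).elim
      · rw [if_neg h1] at h
        by_cases h2 : b (T.hd (T.f d')) = b (T.tl d')
        · rw [if_pos h2] at h
          exact (nx_inj_aux T b hb hd' hd (T.a.injective h).symm h2).elim
        · rw [if_neg h2] at h
          exact T.f.injective (T.f.injective (T.a.injective h))
    · exfalso
      have h1 := nx_spec T b hb hd
      have h2 : nx T b d' = d' := by
        unfold nx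
        rw [if_neg hd']
      rw [h, h2] at h1
      apply hd'
      rw [h1.1, h1.2.1, hd]
  · have h2 : nx T b d = d := by
      unfold nx
      rw [if_neg hd]
    by_cases hd' : b (T.tl d') = b (T.hd d') + 1
    · exfalso
      have h1 := nx_spec T b hb hd'
      rw [← h, h2] at h1
      apply hd
      rw [h1.1, h1.2.1, hd']
    · have h3 : nx T b d' = d' := by
        unfold nx
        rw [if_neg hd']
      rw [h2, h3] at h
      exact h

theorem exists_next [Finite D] (T : Tri D) (b : T.V → ℕ)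
    (hb : ∀ d, b (T.tl d) ≤ b (T.hd d) + 1 ∧ b (T.hd d) ≤ b (T.tl d) + 1) :
    ∃ N : Equiv.Perm D, (∀ d, b (T.tl d) ≠ b (T.hd d) + 1 → N d = d) ∧
      ∀ d, b (T.tl d) = b (T.hd d) + 1 → b (T.tl (N d)) = b (T.tl d) ∧ b (T.hd (N d)) = b (T.hd d) ∧
        Dle T 1 (T.tl d) (T.tl (N d)) ∧ (T.a (N d) = T.f d ∨ T.a (N d) = T.f (T.f d)) := by
  refine ⟨Equiv.ofBijective (nx T b) (Finite.injective_iff_bijective.1 (nx_inj T b hb)), fun d hd => ?_,
    fun d hd => nx_spec T b hb hd⟩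
  show nx T b d = d
  unfold nx
  rw [if_neg hd]

end SYS
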